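import Pool.Agent.helper63.Dg4.Spec

/-!
# Row FIN of the project dg4 (MP_a87378_lc)
-/

namespace Pool.Agent.helper63.Dg4

open Encodable Pool.Agent.helper63.Diag

/-- a point outside a closed set is separated from it by an initial segment -/
theorem fin_sep {S : Set (ℕ → ℕ)} (hS : IsClosed S) {g : ℕ → ℕ} (hg : g ∉ S) :
    ∃ K, ∀ g' : ℕ → ℕ, res g' K = res g K → g' ∉ S := by
  have hopen : IsOpen Sᶜ := hS.isOpen_compl
  have hmem : g ∈ Sᶜ := hg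
  rw [isOpen_pi_iff] at hopen
  obtain ⟨I, u, hu, hsub⟩ := hopen g hmem
  refine ⟨I.sup id + 1, fun g' hg' => ?_⟩
  have h2 : g' ∈ Sᶜ := by
    apply hsub
    rw [Set.mem_pi]
    intro i hi
    have hi' : i ∈ I := hi
    have hle : i ≤ I.sup id := Finset.le_sup (f := id) hi'
    have h3 := res_inj hg' i (Nat.lt_succ_of_le hle)
    rw [h3]
    exact (hu i hi').2
  exact h2

/-- a generic sequence with an active column for every hard ceer gives a member of `Diag` -/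
theorem fin_inDiag (hDAX : DAX_stmt) (s : ℕ → Cond) (X : ℕ → ℕ) (hsat : ∀ m, Sat (s m) X)
    (hle : ∀ m k, m ≤ k → Le (s k) (s m))
    (hdat : ∀ κ x B m0, ∃ m ≥ m0, (s m).ab.getD κ 0 = 2 →
      ∃ i, (B ≤ i ∧ i < (s m).σ.length) ∧ (col i = κ ∧ el i = x) ∧ (s m).σ.getD i 0 ≠ 0)
    (hcol : ∀ c : HC, ∃ m κ, (s m).ab.getD κ 0 = 2 ∧ (s m).ce κ = c) : InDiag X := by
  intro E hE hne
  by_cases hd : ∃ g : ℕ → ℕ, Computable g ∧ ∀ x, ¬ E (g x) x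
  · obtain ⟨g, hg, hg2⟩ := hd
    refine ⟨g, ?_, hg2⟩
    have h1 : Nat.RecursiveIn {fun n => Part.some (X n)} (fun n => Part.some (g n)) :=
      Nat.Partrec.recursiveIn (Partrec.nat_iff.1 hg.partrec)
    exact RecursiveIn.iff_nat.2 h1
  · let c : HC := { E := E, eqv := hE.1, ce := S1.of_re hE.2, ne := hne, hard := hd }
    obtain ⟨m, κ, h1, h2⟩ := hcol c
    have h3 := hDAX s X hsat hle hdat m κ h1
    rw [h2] at h3
    exact h3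

theorem FIN (hPZ : PZ_stmt) (hCOL : COL_stmt) (hDAT : DAT_stmt) (hRED : RED_stmt)
    (hEXT : EXT_stmt) (hGEN : GEN_stmt) (hDAX : DAX_stmt) (hCHC : CHC_stmt) (hHEX : HEX_stmt)
    (hENQ : ENQ_stmt) (hFORCE : FORCE_stmt) : FIN_stmt := by
  classical
  intro C hC hall
  obtain ⟨pz, -, -⟩ := hPZ
  -- (A)
  have hB : ∃ (n : ℕ) (q0 : Cond), ∀ r, Le r q0 → ∀ m, ∃ r', Le r' r ∧
      ∃ i, ∀ g, Sat r' g → g ∈ C n m i := by
    by_contra hcon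
    have hA : ∀ (n : ℕ) (q0 : Cond), ∃ r, Le r q0 ∧ ∃ m, ∀ r', Le r' r → ∀ i,
        ¬ ∀ g, Sat r' g → g ∈ C n m i := by
      intro n q0
      by_contra h
      apply hcon
      refine ⟨n, q0, fun r hr m => ?_⟩
      by_contra h2
      apply h
      refine ⟨r, hr, m, fun r' hr' i h3 => h2 ⟨r', hr', i, h3⟩⟩
    have : Countable HC := hCHC
    obtain ⟨hc0⟩ := hHEX
    let T1 : ℕ → Cond → Prop := fun n q => ∃ m, ∀ r', Le r' q → ∀ i,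
        ¬ ∀ g, Sat r' g → g ∈ C n m i
    let T2 : ℕ × ℕ × ℕ → Cond → Prop := fun t q =>
      (∀ g, Sat q g → g ∈ C t.1 t.2.1 t.2.2) ∨ (∀ g, Sat q g → g ∉ C t.1 t.2.1 t.2.2)
    let T3 : HC → Cond → Prop := fun c q => ∃ κ, q.ab.getD κ 0 = 2 ∧ q.ce κ = c
    let T4 : ℕ × ℕ × ℕ → Cond → Prop := fun t q => q.ab.getD t.1 0 = 2 →
      ∃ i, (t.2.2 ≤ i ∧ i < q.σ.length) ∧ (col i = t.1 ∧ el i = t.2.1) ∧ q.σ.getD i 0 ≠ 0
    let T : (ℕ ⊕ (ℕ × ℕ × ℕ)) ⊕ (HC ⊕ (ℕ × ℕ × ℕ)) → Cond → Prop :=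
      Sum.elim (Sum.elim T1 T2) (Sum.elim T3 T4)
    have : Nonempty ((ℕ ⊕ (ℕ × ℕ × ℕ)) ⊕ (HC ⊕ (ℕ × ℕ × ℕ))) := ⟨Sum.inl (Sum.inl 0)⟩
    obtain ⟨enum, henum⟩ := exists_surjective_nat ((ℕ ⊕ (ℕ × ℕ × ℕ)) ⊕ (HC ⊕ (ℕ × ℕ × ℕ)))
    have dense : ∀ t p, ∃ q, Le q p ∧ T t q := by
      rintro ((n | ⟨n, m, i⟩) | (c | ⟨κ, x, B⟩)) p
      · obtain ⟨r, h1, h2⟩ := hA n p
        exact ⟨r, h1, h2⟩
      · by_cases h : ∀ g, Sat p g → g ∈ C n m i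
        · exact ⟨p, Le.refl p, Or.inl h⟩
        · push Not at h
          obtain ⟨g, hg, hgC⟩ := h
          obtain ⟨K, hK⟩ := fin_sep (hC n m i) hgC
          obtain ⟨q, h1, h2, h3, h4, h5, h6⟩ := hEXT p g (max K p.σ.length) hg (le_max_right _ _)
          refine ⟨q, h1, Or.inr fun g' hg' => hK g' ?_⟩
          have h7 := hg'.1
          rw [h3, res_length] at h7
          rw [← res_take g' (le_max_left K p.σ.length), h7, res_take g (le_max_left _ _)]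
      · obtain ⟨q, κ, h1, h2, h3⟩ := hCOL p c
        exact ⟨q, h1, κ, h2, h3⟩
      · by_cases h : p.ab.getD κ 0 = 2
        · obtain ⟨q, h1, h2, h3⟩ := hDAT p κ x B h
          exact ⟨q, h1, fun _ => h3⟩
        · exact ⟨p, Le.refl p, fun h' => absurd h' h⟩
    obtain ⟨s, X, -, -, hle, hDD, -, hsat⟩ := hGEN (fun _ => True) (fun i => T (enum i))
      (fun p _ i => by
        obtain ⟨q, h1, h2⟩ := dense (enum i) p
        exact ⟨q, trivial, h1, h2⟩) (fun _ _ _ _ _ => trivial) pz trivial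
    have hT : ∀ t m0, ∃ m ≥ m0, T t (s m) := by
      intro t m0
      obtain ⟨i, rfl⟩ := henum t
      exact hDD i m0
    have hX : InDiag X := by
      refine fin_inDiag hDAX s X hsat hle (fun κ x B m0 => ?_) (fun c => ?_)
      · exact hT (Sum.inr (Sum.inr (κ, x, B))) m0
      · obtain ⟨m, -, κ, h⟩ := hT (Sum.inr (Sum.inl c)) 0
        exact ⟨m, κ, h⟩
    obtain ⟨n, hn⟩ := (hall X).1 hX
    obtain ⟨k, -, m, hk⟩ := hT (Sum.inl (Sum.inl n)) 0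
    obtain ⟨i, hi⟩ := hn m
    obtain ⟨k', -, hk'⟩ := hT (Sum.inl (Sum.inr (n, m, i))) 0
    rcases hk' with hk' | hk'
    · refine hk (s (max k k')) (hle _ _ (le_max_left _ _)) i (fun g hg => ?_)
      exact hk' g ((hle _ _ (le_max_right k k')).2.2 g hg)
    · exact hk' X (hsat k') hi
  -- (B)
  obtain ⟨n, q0, hq0⟩ := hB
  obtain ⟨E', hE', h01, hR, hQ⟩ := hENQ q0
  have : Countable {D : List ℕ → ℕ × ℕ → Prop | PrimrecRel D} :=
    countable_primrecRel.to_subtype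
  let T1 : ℕ → Cond → Prop := fun m q => ∃ i, ∀ g, Sat q g → g ∈ C n m i
  let T2 : {D : List ℕ → ℕ × ℕ → Prop | PrimrecRel D} → Cond → Prop := fun D q =>
    ∀ g, Sat q g → Req D.1 E' g
  let T : ℕ ⊕ {D : List ℕ → ℕ × ℕ → Prop | PrimrecRel D} → Cond → Prop := Sum.elim T1 T2
  have : Nonempty (ℕ ⊕ {D : List ℕ → ℕ × ℕ → Prop | PrimrecRel D}) := ⟨Sum.inl 0⟩
  obtain ⟨enum, henum⟩ := exists_surjective_nat (ℕ ⊕ {D : List ℕ → ℕ × ℕ → Prop | PrimrecRel D})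
  have dense : ∀ t p, (Le p q0 ∧ Sm p q0) → ∃ q, (Le q q0 ∧ Sm q q0) ∧ Le q p ∧ T t q := by
    rintro (m | D) p ⟨hp1, hp2⟩
    · obtain ⟨r', h1, i, h2⟩ := hq0 p hp1 m
      obtain ⟨q, h3, h4, h5⟩ := hRED p r' q0 h1 hp1 hp2
      exact ⟨q, ⟨h3.trans hp1, h4⟩, h3, i, fun g hg => h2 g (h5 g hg)⟩
    · obtain ⟨q, h1, h2, h3⟩ := hFORCE E' hE'.1 hR p (fun κ hκ => by
        obtain ⟨h4, h5⟩ := hp2 κ hκ
        have h6 := hQ κ h4
        rw [← h5] at h6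
        exact h6) D.1 D.2
      exact ⟨q, ⟨h1.trans hp1, h2.trans hp2⟩, h1, h3⟩
  obtain ⟨s, X, -, -, -, hDD, -, hsat⟩ := hGEN (fun p => Le p q0 ∧ Sm p q0) (fun i => T (enum i))
    (fun p hp i => dense (enum i) p hp) (fun p q hp h1 h2 => ⟨h1.trans hp.1, h2.trans hp.2⟩) q0
    ⟨Le.refl q0, Sm.refl q0⟩
  have hT : ∀ t, ∃ m, T t (s m) := by
    intro t
    obtain ⟨i, rfl⟩ := henum t
    obtain ⟨m, -, h⟩ := hDD i 0
    exact ⟨m, h⟩
  have hX : InDiag X := by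
    refine (hall X).2 ⟨n, fun m => ?_⟩
    obtain ⟨k, i, hk⟩ := hT (Sum.inl m)
    exact ⟨i, hk X (hsat k)⟩
  obtain ⟨g, hg1, hg2⟩ := hX E' hE' ⟨0, 1, h01⟩
  obtain ⟨D, hD, hA⟩ := s1_graph hg1
  obtain ⟨k, hk⟩ := hT (Sum.inr ⟨D, hD⟩)
  obtain ⟨x, z, l, h1, h2⟩ := hk X (hsat k) (fun x => by
    obtain ⟨l, hl⟩ := (hA (x, g x)).1 rfl
    exact ⟨g x, l, hl⟩)
  have h3 : g x = z := (hA (x, z)).2 ⟨l, h1⟩
  exact hg2 x (by rw [h3]; exact h2)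

end Pool.Agent.helper63.Dg4
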